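import Mathlib
import Pool.Agent.Lead.Wfb

namespace Pool.Agent.Results.MP_a2e3d9_lc.Counter
open Set Pool.Agent.Lead

theorem result : ∃ f : ℕ × (ℕ → ℕ) → ℕ × (ℕ → ℕ), Continuous f ∧
    (∀ y, (f ⁻¹' {y}).Countable) ∧ (∀ x n, 1 ≤ n → f^[n] x ≠ x) ∧
    (¬ ∃ x : ℕ → ℕ × (ℕ → ℕ), ∀ i, f (x (i + 1)) = x i) ∧
    ∀ B : Set (ℕ × (ℕ → ℕ)), BaireMeasurableSet B →
      ¬ ((∀ x, ∃ y ∈ B, ∃ m n, f^[m] x = f^[n] y) ∧ f '' B ⊆ B ∧
        ∀ y, (f ⁻¹' {y} ∩ B).Finite) := by
  refine ⟨Wfb.f, Wfb.f_cont, fun y => ?_, fun x n hn h => ?_, ?_,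
    fun B hB h => Wfb.main B hB h.1 (mapsTo_iff_image_subset.2 h.2.1) h.2.2⟩
  · refine MapsTo.countable_of_injOn (f := fun p : ℕ × (ℕ → ℕ) => (p.1, p.2 0)) (mapsTo_univ _ _) ?_
      Set.countable_univ
    intro p hp q hq h
    have h1 : Wfb.f p = Wfb.f q := (show Wfb.f p = y from hp).trans (show Wfb.f q = y from hq).symm
    have h' : (p.1, p.2 0) = (q.1, q.2 0) := h
    refine Prod.ext (Prod.mk.inj h').1 (funext fun i => ?_)
    cases i with
    | zero => exact (Prod.mk.inj h').2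
    | succ i => exact congrFun (congrArg Prod.snd h1) i
  · have := congrArg Prod.fst h
    rw [Wfb.f_iter] at this
    simp only at this
    omega
  · rintro ⟨x, hx⟩
    have : ∀ i, (x i).1 + i = (x 0).1 := by
      intro i
      induction i with
      | zero => rfl
      | succ i ih =>
        have := congrArg Prod.fst (hx i)
        simp only [Wfb.f] at this
        omega
    have := this ((x 0).1 + 1)
    omega

end Pool.Agent.Results.MP_a2e3d9_lc.Counter
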